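import Pool.Agent.J4H20.CI.Stm2

/-! Project CI, part PI: the deck group of a connected regular covering is a quotient of the
fundamental group. -/

open scoped Topology
open Set

noncomputable section

namespace Pool.Agent.J4H56.CI

universe v

theorem t_PI : Pool.Agent.J4H20.CI.S_PI.{v} := by
  intro P _ _ N _ Γ _ _ q hq hs hc hf hfree p₀
  have hp : IsQuotientCoveringMap q Γ := by
    refine (isQuotientCoveringMap_iff ..).mpr ⟨hq.isOpenMap.isQuotientMap hq.continuous hs, ⟨hc⟩, ?_, ?_⟩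
    · intro e₁ e₂
      constructor
      · intro h
        obtain ⟨g, hg⟩ := (hf e₂ e₁).1 h.symm
        exact ⟨g, hg⟩
      · rintro ⟨g, hg⟩
        exact ((hf e₂ e₁).2 ⟨g, hg⟩).symm
    · intro e
      obtain ⟨f, he, rfl⟩ := hq e
      refine ⟨f.source, f.open_source.mem_nhds he, ?_⟩
      rintro g ⟨_, ⟨x, hx, rfl⟩, hgx⟩
      refine hfree g x (f.injOn hgx hx ?_)
      exact ((hf x (g • x)).2 ⟨g, rfl⟩).symm
  let e : q ⁻¹' {q p₀} := ⟨p₀, rfl⟩
  refine ⟨(MulEquiv.inv' Γ).symm.toMonoidHom.comp (hp.fundamentalGroupToMulOpposite e), ?_⟩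
  refine (MulEquiv.inv' Γ).symm.surjective.comp ?_
  exact hp.fundamentalGroupToMulOpposite_surjective e

end Pool.Agent.J4H56.CI
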